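import Pool.Agent.N321.KT.Main
import Pool.Agent.N823.KT.MIN
import Pool.Agent.N505.KT.CYC
import Pool.Agent.N97.KT.GEN
import Pool.Agent.N663.KT.JET
import Pool.Agent.N323.KT.LOC
import Pool.Agent.N329.KT.DEN
import Pool.Agent.N395.KT.END
import Pool.Agent.N558.KT.KIL
import Pool.Agent.N531.KTCON
import Pool.Agent.N252.KT.PUR
import Pool.Agent.N919.KT.MONO
import Pool.Agent.N624.KT.SUM
import Pool.Agent.N768.KT.N3
import Pool.Agent.N37.KT.N4
import Pool.Agent.N296.KT.N5
import Pool.Agent.N973.KT.EX

/-!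
MP_e1e8f4_mp: conservation laws of a generic Killing tensor of a metric of constant curvature.

In dimension `n ≥ 3` the answer is no: for every constant curvature `c` and every signature, there
is a nonzero polynomial function `F` on the vector space of the `(1,1)`-Killing tensors (on any
connected open set `U`) such that, if `F K ≠ 0`, all local conservation laws of `K` (on any
connected open subset of `U`, even those which are only smooth) are constant.

(In dimension two a generic Killing tensor has two different eigenvalues, and it is known that it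
has conservation laws which depend on two functions of one variable.)

The proof: the equations `d (K* df) = 0` and their derivatives of order at most `4` at a point are
linear equations for the `6`-jet of `f`, with coefficients in the `5`-jet of `K`. The pure sixth
powers in the eigendirections of `K` (for a general operator: the `n`-dimensional space of the
functions `a (N (x) ^ 6 u)`, where `N (x)` is the polynomial in `K (0)` with `N (x) u = x`) are
solutions. For a special `K` (a diagonal constant operator plus a sparse linear one, in blocks of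
`3`, `4` and `5` coordinates) there are no other solutions, which is shown by explicit
certificates; so the rank is maximal there, and hence for generic `K`, and then the derivatives of
order at most `5` of `f` vanish. For curvature different from zero the special Killing tensor is
deformed, and its linear part is large compared with the curvature.

helper321 (plan, assembly), with helper823 (generic rank), helper505 (cyclic vectors), helper97
(generic operators), helper663 (jets), helper323 (truncation), helper329 (identity theorem),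
helper395 (conclusion), helper558 (Killing tensors), helper531 (continuity in the curvature),
helper252, helper919, helper624 (reductions), helper768, helper37, helper296 (certificates),
helper973 (all dimensions).
-/

set_option autoImplicit false

open Pool.Agent.N321

namespace Pool.Agent.Results.MP_e1e8f4_mp.GenericKillingTensors

/-- The partial derivative `∂ f / ∂ x i` at `x`. -/
noncomputable def partialDeriv {n : ℕ} (i : Fin n) (f : (Fin n → ℝ) → ℝ) (x : Fin n → ℝ) : ℝ :=
  fderiv ℝ f x (Pi.single i 1)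

/-- `ρ = 1 + c ∑ ε i (x i) ^ 2`. -/
def rho {n : ℕ} (c : ℝ) (ε : Fin n → ℝ) (x : Fin n → ℝ) : ℝ := 1 + c * ∑ i, ε i * x i ^ 2

/-- The components `g^{ij} = ρ (ε i δ^{ij} + c x i x j)` of the inverse of the metric
`g = (ρ ∑ ε i (dx i) ^ 2 - c (∑ ε i x i dx i) ^ 2) / ρ ^ 2` of constant curvature `c` and signature
`ε i = 1, -1` in the projective (Beltrami) coordinates. -/
def metricInv {n : ℕ} (c : ℝ) (ε : Fin n → ℝ) (x : Fin n → ℝ) (i j : Fin n) : ℝ :=
  rho c ε x * ((if i = j then ε i else 0) + c * x i * x j)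

/-- The quadratic form `g⁻¹(K* p, p)` on the covectors at `x`. Here `K x s j = K^s_j` are the
components of an operator field, and `(K* p)_j = ∑ K^s_j p_s`. -/
def quad {n : ℕ} (c : ℝ) (ε : Fin n → ℝ) (K : (Fin n → ℝ) → Fin n → Fin n → ℝ)
    (x p : Fin n → ℝ) : ℝ :=
  ∑ j, ∑ t, metricInv c ε x j t * (∑ s, K x s j * p s) * p t

/-- The quadratic form `g⁻¹(p, p)`. -/
def energy {n : ℕ} (c : ℝ) (ε : Fin n → ℝ) (x p : Fin n → ℝ) : ℝ :=
  ∑ s, ∑ t, metricInv c ε x s t * p s * p t

/-- The Poisson bracket of two functions on the cotangent bundle (`x` are the coordinates, `p` the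
momenta). -/
noncomputable def poisson {n : ℕ} (H F : (Fin n → ℝ) → (Fin n → ℝ) → ℝ) (x p : Fin n → ℝ) : ℝ :=
  ∑ l, (partialDeriv l (fun q => H x q) p * partialDeriv l (fun y => F y p) x -
    partialDeriv l (fun y => H y p) x * partialDeriv l (fun q => F x q) p)

/-- The operator field `K` is self-adjoint at `x`: `K^s_j g^{jt}` is symmetric in `s`, `t`. -/
def IsSelfAdjointAt {n : ℕ} (c : ℝ) (ε : Fin n → ℝ) (K : (Fin n → ℝ) → Fin n → Fin n → ℝ)
    (x : Fin n → ℝ) : Prop :=
  ∀ s t, ∑ j, K x s j * metricInv c ε x j t = ∑ j, K x t j * metricInv c ε x j s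

/-- The operator field `K` is a `(1,1)`-Killing tensor of the metric on the open set `U`: it is
analytic, self-adjoint, and the function `g⁻¹(K* p, p)` Poisson-commutes with `g⁻¹(p, p)`. -/
structure IsKillingTensor {n : ℕ} (c : ℝ) (ε : Fin n → ℝ) (U : Set (Fin n → ℝ))
    (K : (Fin n → ℝ) → Fin n → Fin n → ℝ) : Prop where
  analytic : ∀ s j, AnalyticOnNhd ℝ (fun x => K x s j) U
  selfAdjoint : ∀ x ∈ U, IsSelfAdjointAt c ε K x
  commute : ∀ x ∈ U, ∀ p : Fin n → ℝ, poisson (energy c ε) (quad c ε K) x p = 0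

/-- `f` is a conservation law of `K` on `W`: the `1`-form `K* df` is closed. -/
def IsConservationLaw {n : ℕ} (K : (Fin n → ℝ) → Fin n → Fin n → ℝ) (f : (Fin n → ℝ) → ℝ)
    (W : Set (Fin n → ℝ)) : Prop :=
  ∀ x ∈ W, ∀ i j, partialDeriv i (fun y => ∑ s, K y s j * partialDeriv s f y) x =
    partialDeriv j (fun y => ∑ s, K y s i * partialDeriv s f y) x

theorem metricInv_symm {n : ℕ} (c : ℝ) (ε : Fin n → ℝ) (x : Fin n → ℝ) (i j : Fin n) :
    metricInv c ε x i j = metricInv c ε x j i := by
  unfold metricInv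
  by_cases h : i = j
  · subst h; rfl
  · rw [if_neg h, if_neg (Ne.symm h)]; ring

/-- The derivative of a quadratic form. -/
theorem partialDeriv_quad {n : ℕ} (A : Fin n → Fin n → ℝ) (hA : ∀ s t, A s t = A t s)
    (l : Fin n) (p : Fin n → ℝ) :
    partialDeriv l (fun q => ∑ s, ∑ t, A s t * q s * q t) p = 2 * ∑ t, A l t * p t := by
  have h1 : ∀ s : Fin n, HasFDerivAt (fun q : Fin n → ℝ => q s)
      (ContinuousLinearMap.proj (R := ℝ) (φ := fun _ : Fin n => ℝ) s) p := fun s =>
    (ContinuousLinearMap.proj (R := ℝ) (φ := fun _ : Fin n => ℝ) s).hasFDerivAt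
  have h2 : HasFDerivAt (fun q : Fin n → ℝ => ∑ s, ∑ t, A s t * q s * q t)
      (∑ s, ∑ t, ((A s t * p s) • ContinuousLinearMap.proj (R := ℝ) (φ := fun _ : Fin n => ℝ) t +
        p t • (A s t • ContinuousLinearMap.proj (R := ℝ) (φ := fun _ : Fin n => ℝ) s))) p := by
    refine HasFDerivAt.fun_sum fun s _ => HasFDerivAt.fun_sum fun t _ => ?_
    exact ((h1 s).const_mul (A s t)).mul (h1 t)
  unfold partialDeriv
  rw [h2.fderiv]
  simp only [ContinuousLinearMap.sum_apply, ContinuousLinearMap.add_apply,
    ContinuousLinearMap.smul_apply, ContinuousLinearMap.proj_apply, smul_eq_mul, Pi.single_apply,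
    mul_ite, mul_one, mul_zero, Finset.sum_add_distrib, Finset.sum_ite_eq', Finset.mem_univ,
    if_true]
  rw [Finset.sum_comm (f := fun s t => if s = l then p t * A s t else 0)]
  simp only [Finset.sum_ite_eq', Finset.mem_univ, if_true]
  rw [two_mul]
  congr 1
  · exact Finset.sum_congr rfl fun s _ => by rw [hA s l]
  · exact Finset.sum_congr rfl fun s _ => by ring

theorem quad_eq {n : ℕ} (c : ℝ) (ε : Fin n → ℝ) (K : (Fin n → ℝ) → Fin n → Fin n → ℝ)
    (x p : Fin n → ℝ) :
    quad c ε K x p = ∑ s, ∑ t, (∑ j, K x s j * metricInv c ε x j t) * p s * p t := by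
  unfold quad
  have h : ∀ j t, metricInv c ε x j t * (∑ s, K x s j * p s) * p t =
      ∑ s, K x s j * metricInv c ε x j t * p s * p t := by
    intro j t
    rw [Finset.mul_sum, Finset.sum_mul]
    exact Finset.sum_congr rfl fun s _ => by ring
  simp only [h, Finset.sum_mul]
  have h2 : ∀ j, ∑ t, ∑ s, K x s j * metricInv c ε x j t * p s * p t =
      ∑ s, ∑ t, K x s j * metricInv c ε x j t * p s * p t := fun j => Finset.sum_comm
  simp only [h2]
  rw [Finset.sum_comm]
  exact Finset.sum_congr rfl fun s _ => Finset.sum_comm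

theorem partialDeriv_sum {n : ℕ} (F : Fin n → Fin n → (Fin n → ℝ) → ℝ) (x p : Fin n → ℝ)
    (hF : ∀ s t, DifferentiableAt ℝ (F s t) x) (l : Fin n) :
    partialDeriv l (fun y => ∑ s, ∑ t, F s t y * p s * p t) x =
      ∑ s, ∑ t, partialDeriv l (F s t) x * p s * p t := by
  have h2 : HasFDerivAt (fun y => ∑ s, ∑ t, F s t y * p s * p t)
      (∑ s, ∑ t, p t • (p s • fderiv ℝ (F s t) x)) x := by
    refine HasFDerivAt.fun_sum fun s _ => HasFDerivAt.fun_sum fun t _ => ?_
    exact ((hF s t).hasFDerivAt.mul_const (p s)).mul_const (p t)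
  unfold partialDeriv
  rw [h2.fderiv]
  simp only [ContinuousLinearMap.sum_apply, ContinuousLinearMap.smul_apply, smul_eq_mul]
  exact Finset.sum_congr rfl fun s _ => Finset.sum_congr rfl fun t _ => by ring

theorem isKilling_iff {n : ℕ} (c : ℝ) (ε : Fin n → ℝ) (U : Set (Fin n → ℝ))
    (K : (Fin n → ℝ) → Fin n → Fin n → ℝ) :
    IsKillingTensor c ε U K ↔ KT.IsKilling (KT.gInv c ε) U K := by
  have hG := fun s t => KT.gInv_analytic (ι := Fin n) c ε U s t
  have key : (∀ s j, AnalyticOnNhd ℝ (fun x => K x s j) U) →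
      (∀ x ∈ U, ∀ s t, ∑ j, K x s j * metricInv c ε x j t =
        ∑ j, K x t j * metricInv c ε x j s) → ∀ x ∈ U, ∀ p : Fin n → ℝ,
      ∑ l, (partialDeriv l (fun q => energy c ε x q) p * partialDeriv l (fun y => quad c ε K y p) x -
        partialDeriv l (fun y => energy c ε y p) x * partialDeriv l (fun q => quad c ε K x q) p) =
      2 * ∑ l, ((∑ j, KT.gInv c ε x l j * p j) *
        (∑ s, ∑ t, KT.pd l (fun y => ∑ j, K y s j * KT.gInv c ε y j t) x * p s * p t) -
      (∑ t, (∑ j, K x l j * KT.gInv c ε x j t) * p t) *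
        (∑ s, ∑ t, KT.pd l (fun y => KT.gInv c ε y s t) x * p s * p t)) := by
    intro h1 h2 x hx p
    rw [Finset.mul_sum]
    refine Finset.sum_congr rfl fun l _ => ?_
    have e1 : partialDeriv l (fun q => energy c ε x q) p =
        2 * ∑ t, metricInv c ε x l t * p t :=
      partialDeriv_quad (metricInv c ε x) (metricInv_symm c ε x) l p
    have e2 : partialDeriv l (fun q => quad c ε K x q) p =
        2 * ∑ t, (∑ j, K x l j * metricInv c ε x j t) * p t := by
      simp only [quad_eq]
      exact partialDeriv_quad (fun s t => ∑ j, K x s j * metricInv c ε x j t) (h2 x hx) l p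
    have e3 : partialDeriv l (fun y => quad c ε K y p) x =
        ∑ s, ∑ t, partialDeriv l (fun y => ∑ j, K y s j * metricInv c ε y j t) x * p s * p t := by
      simp only [quad_eq]
      exact partialDeriv_sum (fun s t y => ∑ j, K y s j * metricInv c ε y j t) x p
        (fun s t => KT.up_diff hG h1 s t x hx) l
    have e4 : partialDeriv l (fun y => energy c ε y p) x =
        ∑ s, ∑ t, partialDeriv l (fun y => metricInv c ε y s t) x * p s * p t :=
      partialDeriv_sum (fun s t y => metricInv c ε y s t) x p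
        (fun s t => (hG s t x hx).differentiableAt) l
    rw [e1, e2, e3, e4]
    change 2 * (∑ t, KT.gInv c ε x l t * p t) *
      (∑ s, ∑ t, KT.pd l (fun y => ∑ j, K y s j * KT.gInv c ε y j t) x * p s * p t) -
      (∑ s, ∑ t, KT.pd l (fun y => KT.gInv c ε y s t) x * p s * p t) *
      (2 * ∑ t, (∑ j, K x l j * KT.gInv c ε x j t) * p t) = _
    ring
  constructor
  · rintro ⟨h1, h2, h3⟩
    refine ⟨h1, h2, fun x hx p => ?_⟩
    have := (key h1 h2 x hx p).symm.trans (h3 x hx p)
    exact (mul_eq_zero.1 this).resolve_left two_ne_zero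
  · rintro ⟨h1, h2, h3⟩
    refine ⟨h1, h2, fun x hx p => ?_⟩
    refine (key h1 h2 x hx p).trans ?_
    rw [h3 x hx p, mul_zero]

/-- `K` is a Killing tensor on `U`, extended by zero to the complement of `U`. -/
def KillingOn {n : ℕ} (c : ℝ) (ε : Fin n → ℝ) (U : Set (Fin n → ℝ))
    (K : (Fin n → ℝ) → Fin n → Fin n → ℝ) : Prop :=
  IsKillingTensor c ε U K ∧ ∀ x ∉ U, K x = 0

theorem killingOn_add {n : ℕ} {c : ℝ} {ε : Fin n → ℝ} {U : Set (Fin n → ℝ)}
    {K K' : (Fin n → ℝ) → Fin n → Fin n → ℝ} (h : KillingOn c ε U K) (h' : KillingOn c ε U K') :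
    KillingOn c ε U (K + K') := by
  obtain ⟨h1, h2⟩ := h
  obtain ⟨h1', h2'⟩ := h'
  refine ⟨(isKilling_iff c ε U _).2 ?_, fun x hx => by simp [h2 x hx, h2' x hx]⟩
  exact ((isKilling_iff c ε U _).1 h1).add (fun s t => KT.gInv_analytic c ε U s t)
    ((isKilling_iff c ε U _).1 h1')

theorem killingOn_zero {n : ℕ} {c : ℝ} {ε : Fin n → ℝ} {U : Set (Fin n → ℝ)} :
    KillingOn c ε U 0 :=
  ⟨(isKilling_iff c ε U _).2 (KT.IsKilling.zero _ U), fun _ _ => rfl⟩

theorem killingOn_smul {n : ℕ} {c : ℝ} {ε : Fin n → ℝ} {U : Set (Fin n → ℝ)} (a : ℝ)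
    {K : (Fin n → ℝ) → Fin n → Fin n → ℝ} (h : KillingOn c ε U K) :
    KillingOn c ε U (a • K) := by
  obtain ⟨h1, h2⟩ := h
  refine ⟨(isKilling_iff c ε U _).2 ?_, fun x hx => by simp [h2 x hx]⟩
  exact ((isKilling_iff c ε U _).1 h1).smul a (fun s t => KT.gInv_analytic c ε U s t)

/-- The real vector space of the `(1,1)`-Killing tensors on `U` (the fields are extended by zero to
the complement of `U`); they form a vector space, see `mem_killingTensors`. -/
def killingTensors {n : ℕ} (c : ℝ) (ε : Fin n → ℝ) (U : Set (Fin n → ℝ)) :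
    Submodule ℝ ((Fin n → ℝ) → Fin n → Fin n → ℝ) :=
  Submodule.span ℝ {K | KillingOn c ε U K}

theorem mem_killingTensors {n : ℕ} (c : ℝ) (ε : Fin n → ℝ) (U : Set (Fin n → ℝ))
    (K : (Fin n → ℝ) → Fin n → Fin n → ℝ) : K ∈ killingTensors c ε U ↔ KillingOn c ε U K := by
  refine ⟨fun h => ?_, fun h => Submodule.subset_span h⟩
  refine Submodule.span_induction (p := fun K _ => KillingOn c ε U K) (fun K hK => hK)
    killingOn_zero (fun K K' _ _ h h' => killingOn_add h h')
    (fun a K _ h => killingOn_smul a h) h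

/-- The vector space of the `(1,1)`-Killing tensors on `U`, as a type. -/
def KillingSpace {n : ℕ} (c : ℝ) (ε : Fin n → ℝ) (U : Set (Fin n → ℝ)) : Type :=
  killingTensors c ε U

/-- The field of operators. -/
def KillingSpace.field {n : ℕ} {c : ℝ} {ε : Fin n → ℝ} {U : Set (Fin n → ℝ)}
    (K : KillingSpace c ε U) : (Fin n → ℝ) → Fin n → Fin n → ℝ := K.1

noncomputable instance {n : ℕ} (c : ℝ) (ε : Fin n → ℝ) (U : Set (Fin n → ℝ)) :
    AddCommGroup (KillingSpace c ε U) :=
  Submodule.addCommGroup (killingTensors c ε U)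

noncomputable instance {n : ℕ} (c : ℝ) (ε : Fin n → ℝ) (U : Set (Fin n → ℝ)) :
    Module ℝ (KillingSpace c ε U) :=
  Submodule.module (killingTensors c ε U)

/-- `F` is a polynomial function on the real vector space `V`: a polynomial in finitely many
linear functions on `V`. -/
def IsPolynomial {V : Type} [AddCommGroup V] [Module ℝ V] (F : V → ℝ) : Prop :=
  F ∈ Algebra.adjoin ℝ {φ : V → ℝ | ∃ l : V →ₗ[ℝ] ℝ, ∀ v, φ v = l v}

/-- All smooth conservation laws of `K` on the connected open subsets of `U` are constant. -/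
def OnlyConstantLaws {n : ℕ} (K : (Fin n → ℝ) → Fin n → Fin n → ℝ) (U : Set (Fin n → ℝ)) : Prop :=
  ∀ (W : Set (Fin n → ℝ)) (f : (Fin n → ℝ) → ℝ), IsOpen W → IsConnected W → W ⊆ U →
    ContDiffOn ℝ (⊤ : ℕ∞) f W → IsConservationLaw K f W → ∀ x ∈ W, ∀ y ∈ W, f x = f y

/-- **A generic Killing tensor of a metric of constant curvature in dimension `n ≥ 3` has only
constant local conservation laws.** Let `c` be real, let `ε i = 1` or `-1`, and let `U` be a
nonempty connected open set in the domain `ρ > 0` of the metric of constant curvature `c` and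
signature `ε`. There is a polynomial function `F`, not identically zero, on the space of the
`(1,1)`-Killing tensors on `U`, such that for all `K` with `F K ≠ 0` the smooth conservation laws
of `K` on the connected open subsets of `U` are constant. -/
theorem result (n : ℕ) (hn : 3 ≤ n) (c : ℝ) (ε : Fin n → ℝ) (hε : ∀ i, ε i = 1 ∨ ε i = -1)
    (U : Set (Fin n → ℝ)) (hU : IsOpen U) (hUc : IsConnected U) (hUd : ∀ x ∈ U, 0 < rho c ε x) :
    ∃ F : KillingSpace c ε U → ℝ, IsPolynomial F ∧ (∃ K, F K ≠ 0) ∧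
      ∀ K, F K ≠ 0 → OnlyConstantLaws K.field U := by
  have hPUR := Pool.Agent.N252.KT.t
  have hSUM := Pool.Agent.N624.KT.SUM.t hPUR
  have hMONO := Pool.Agent.N919.KT.t hPUR
  have hN3 := Pool.Agent.N768.KT.N3.t hPUR
  have hN4 := Pool.Agent.N37.KT.N4.t hPUR
  have hN5 := Pool.Agent.N296.KT.t hPUR
  have hEX := Pool.Agent.N973.KT.t hN3 hN4 hN5 hMONO hSUM
  have hGEN := Pool.Agent.N97.KT.GEN.t Pool.Agent.N823.KT.t Pool.Agent.N505.KT.CYC.t
  have hDEN := Pool.Agent.N329.KT.DEN.t
  have hEND := Pool.Agent.N395.KT.t Pool.Agent.N663.KT.JET.t Pool.Agent.N323.KT.t hDEN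
  have hε2 : ∀ i, ε i ^ 2 = 1 := by
    intro i
    rcases hε i with h | h <;> rw [h] <;> norm_num
  have hG := fun s t => KT.gInv_analytic (ι := Fin n) c ε U s t
  have heq : killingTensors c ε U = KT.killing (KT.gInv c ε) U hG := by
    ext K
    rw [mem_killingTensors]
    exact and_congr (isKilling_iff c ε U K) Iff.rfl
  obtain ⟨F, h1, h2, h3⟩ := KT.main (ι := Fin n) hEX hGEN hEND hDEN Pool.Agent.N558.KT.t
    Pool.Agent.N531.KTC.t (by simpa using hn) c ε hε2 U hU hUc.isPreconnected hUc.nonempty hUd hG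
  have h3' : ∀ K, F K ≠ 0 → OnlyConstantLaws K.1 U := fun K hK W f a1 a2 a3 a4 a5 =>
    h3 K hK W f a1 a2.isPreconnected a3 a4 a5
  have h4 : ∃ F : killingTensors c ε U → ℝ, IsPolynomial F ∧ (∃ K, F K ≠ 0) ∧
      ∀ K, F K ≠ 0 → OnlyConstantLaws K.1 U := by
    rw [heq]
    exact ⟨F, h1, h2, h3'⟩
  exact h4

end Pool.Agent.Results.MP_e1e8f4_mp.GenericKillingTensors
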